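import Pool.Agent.H37.UMD.Stmts

/-!
Ultimate matching, module IND: the main induction.
-/

set_option autoImplicit false

open MeasureTheory ProbabilityTheory

namespace Pool.UMD

private theorem IND_int {f : ℝ × ℝ → ℝ} (hf : Measurable f) {C : ℝ} (hC : ∀ x, |f x| ≤ C)
    (a : ℝ × ℝ) (A : Mat) : Integrable (fun z => f (a + A.ap z)) g2 := by
  have hm : Measurable (fun z : ℝ × ℝ => a + A.ap z) := by
    unfold Mat.ap
    fun_prop
  exact Integrable.of_bound (hf.comp hm).aestronglyMeasurable C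
    (Filter.Eventually.of_forall fun z => hC _)

private theorem IND_mono {f h : ℝ × ℝ → ℝ} (hf : Measurable f) (hh : Measurable h) {C C' : ℝ}
    (hC : ∀ x, |f x| ≤ C) (hC' : ∀ x, |h x| ≤ C') (a : ℝ × ℝ) (A : Mat) (hle : ∀ x, f x ≤ h x) :
    mu f a A ≤ mu h a A :=
  integral_mono (IND_int hf hC a A) (IND_int hh hC' a A) fun z => hle _

private theorem IND_const (c : ℝ) (a : ℝ × ℝ) (A : Mat) : mu (fun _ => c) a A = c := by
  unfold mu
  simp

private theorem IND_nm {x y T : ℝ} (hT : 0 ≤ T) (hx : |x| ≤ T) (hy : |y| ≤ T) :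
    nm (x, y) ≤ 2 * T := by
  unfold nm
  apply Real.sqrt_le_iff.2
  refine ⟨by positivity, ?_⟩
  have h1 : x ^ 2 ≤ T ^ 2 := by rw [← sq_abs]; exact pow_le_pow_left₀ (abs_nonneg _) hx 2
  have h2 : y ^ 2 ≤ T ^ 2 := by rw [← sq_abs]; exact pow_le_pow_left₀ (abs_nonneg _) hy 2
  simp only
  nlinarith

private theorem IND_nm0 (p : ℝ × ℝ) : 0 ≤ nm p := Real.sqrt_nonneg _

theorem sInd (hOne : SOne) (hSwi : SSwi) (hTer : STer) (hNlp : SNlp) (hRho : SRho)
    (hThp : SThp) (hMzk : SMzk) (hJen : SJen) (_hMmu : SMmu) (hDet : SDet) : SInd := by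
  intro β₁ β₂ Ca Cb Ce K D Λ Cv hC W G G1 G2 T hW hG hT
  obtain ⟨hN1, hN2, hN3, hN4, hN5, hN6, hN7⟩ := hNlp β₁ β₂ hC.p1 hC.p2 hC.ps
  obtain ⟨hT1, hT2, hT3, hT4⟩ := hThp β₁ β₂ hC.p1 hC.p2 hC.ps
  have hK := hC.k
  have hK0 : 0 < √K := Real.sqrt_pos.2 (by linarith)
  have hTnn : 0 ≤ T := (abs_nonneg _).trans (hG.b0 0)
  have hexpK : 4 * K + 8 ≤ Real.exp K := by
    have h1 := Real.quadratic_le_exp_of_nonneg (by linarith : 0 ≤ K)
    nlinarith
  have hexpK1 : 1 ≤ Real.exp K := Real.one_le_exp (by linarith)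
  have hexp2 : 1 + 2 * Real.exp K ≤ Real.exp (K + 2) := by
    rw [Real.exp_add]
    have h1 := Real.add_one_le_exp (2 : ℝ)
    nlinarith
  have hnm : ∀ x, nm (G1 x, G2 x) ≤ 2 * Real.exp K := fun x =>
    (IND_nm hTnn (hG.b1 x) (hG.b2 x)).trans (by linarith)
  have hNLnn : ∀ L p, 0 ≤ NL β₁ β₂ L p := fun L p => IND_nm0 _
  have hmv : Measurable (fun x => (G1 x, G2 x)) := hG.c1.measurable.prodMk hG.c2.measurable
  -- upper bound of θ
  have hth : ∀ L, 16 ≤ L → L ≤ 2 * K + 4 → ∀ x, th β₁ β₂ L (G1 x, G2 x) ≤ 3 * Real.exp K ^ 2 := by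
    intro L hL hL2 x
    refine (hT4 L _ (by linarith)).trans ?_
    have h1 : Real.log (1 + nm (G1 x, G2 x)) ≤ K + 2 := by
      rw [← Real.log_exp (K + 2)]
      refine Real.log_le_log (by linarith [IND_nm0 (G1 x, G2 x)]) ?_
      linarith [hnm x]
    have h2 : max L (4 * Real.log (1 + nm (G1 x, G2 x))) ≤ 4 * K + 8 :=
      max_le (by linarith) (by linarith)
    have h3 : √(max L (4 * Real.log (1 + nm (G1 x, G2 x)))) ≤ Real.exp K := by
      apply Real.sqrt_le_iff.2
      refine ⟨(Real.exp_pos _).le, ?_⟩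
      nlinarith
    have h4 := mul_le_mul h3 (hnm x) (IND_nm0 _) (Real.exp_pos K).le
    nlinarith
  have hthm : ∀ L, 16 ≤ L → Measurable (fun x => th β₁ β₂ L (G1 x, G2 x)) := fun L hL =>
    (hT1 L (by linarith)).measurable.comp hmv
  have hth1 : ∀ L, 16 ≤ L → ∀ x, 1 ≤ th β₁ β₂ L (G1 x, G2 x) := fun L hL x => by
    have h1 := hT2 L (G1 x, G2 x) (by linarith)
    linarith [hNLnn L (G1 x, G2 x)]
  have hthb : ∀ L, 16 ≤ L → L ≤ 2 * K + 4 → ∀ x, |th β₁ β₂ L (G1 x, G2 x)| ≤
      3 * Real.exp K ^ 2 := fun L hL hL2 x => by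
    rw [abs_of_nonneg (by linarith [hth1 L hL x])]
    exact hth L hL hL2 x
  have hph1 : ∀ L, 16 ≤ L → L ≤ 2 * K + 4 → ∀ a A, 1 ≤ ph β₁ β₂ G1 G2 L a A := by
    intro L hL hL2 a A
    have h1 := IND_mono (f := fun _ => (1 : ℝ)) measurable_const (hthm L hL) (C := 1)
      (fun _ => by simp) (hthb L hL hL2) a A (hth1 L hL)
    rwa [IND_const] at h1
  have hph2 : ∀ L, 16 ≤ L → L ≤ 2 * K + 4 → ∀ a A,
      Real.log ((1 + 1 / L) * ph β₁ β₂ G1 G2 L a A) ≤ 3 * K - 1 := by
    intro L hL hL2 a A
    have h1 := IND_mono (hthm L hL) (h := fun _ => 3 * Real.exp K ^ 2) measurable_const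
      (hthb L hL hL2) (C' := 3 * Real.exp K ^ 2) (fun _ => (abs_of_nonneg (by positivity)).le) a A
      (hth L hL hL2)
    rw [IND_const] at h1
    have h2 : 1 / L ≤ 1 / 16 := one_div_le_one_div_of_le (by norm_num) hL
    have h3 : (1 + 1 / L) * ph β₁ β₂ G1 G2 L a A ≤ Real.exp (3 * K - 1) := by
      have h4 : (1 + 1 / L) * ph β₁ β₂ G1 G2 L a A ≤ (1 + 1 / 16) * (3 * Real.exp K ^ 2) := by
        refine mul_le_mul (by linarith) h1 ?_ (by norm_num)
        linarith [hph1 L hL hL2 a A]
      have h5 : Real.exp (3 * K - 1) = Real.exp K ^ 2 * Real.exp (K - 1) := by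
        rw [← Real.exp_nat_mul, ← Real.exp_add]
        congr 1
        push_cast
        ring
      have h6 := Real.add_one_le_exp (K - 1)
      rw [h5]
      have h7 : 0 < Real.exp K ^ 2 := by positivity
      nlinarith
    rw [← Real.log_exp (3 * K - 1)]
    refine Real.log_le_log ?_ h3
    have h8 := hph1 L hL hL2 a A
    have h9 : 0 < 1 / L := by positivity
    positivity
  -- the norm of the mean gradient
  have hNLb : ∀ L, 16 ≤ L → L ≤ 2 * K + 4 → ∀ x, |NL β₁ β₂ L (G1 x, G2 x)| ≤
      3 * Real.exp K ^ 2 := fun L hL hL2 x => by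
    rw [abs_of_nonneg (hNLnn _ _)]
    linarith [hth L hL hL2 x, hT2 L (G1 x, G2 x) (by linarith)]
  have hNLm : ∀ L, Measurable (fun x => NL β₁ β₂ L (G1 x, G2 x)) := fun L => by
    have h1 := hG.c1.measurable
    have h2 := hG.c2.measurable
    unfold NL nm
    fun_prop
  have hmuN : ∀ L, 16 ≤ L → L ≤ 2 * K + 4 → ∀ a A,
      1 + mu (fun x => NL β₁ β₂ L (G1 x, G2 x)) a A ≤ ph β₁ β₂ G1 G2 L a A := by
    intro L hL hL2 a A
    have h1 := IND_mono (f := fun x => 1 + NL β₁ β₂ L (G1 x, G2 x))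
      (measurable_const.add (hNLm L)) (hthm L hL) (C := 3 * Real.exp K ^ 2)
      (fun x => by
        rw [abs_of_nonneg (by linarith [hNLnn L (G1 x, G2 x)])]
        linarith [hth L hL hL2 x, hT2 L (G1 x, G2 x) (by linarith)])
      (hthb L hL hL2) a A (fun x => hT2 L (G1 x, G2 x) (by linarith))
    refine le_trans (le_of_eq ?_) h1
    unfold mu
    rw [integral_add (integrable_const _) (IND_int (hNLm L) (hNLb L hL hL2) a A)]
    simp
  have hgp : ∀ L, 16 ≤ L → L ≤ 2 * K + 4 → ∀ a A, NL β₁ β₂ L (gp G1 G2 a A) ≤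
      mu (fun x => NL β₁ β₂ L (G1 x, G2 x)) a A := by
    intro L hL hL2 a A
    have hm : Measurable (fun z : ℝ × ℝ => a + A.ap z) := by
      unfold Mat.ap
      fun_prop
    exact hJen β₁ β₂ L g2 (fun z => (G1 (a + A.ap z), G2 (a + A.ap z))) T (hmv.comp hm)
      (fun z => ⟨hG.b1 _, hG.b2 _⟩)
  have hZ : ∀ k a A, 1 ≤ Zk D Λ Cv W k a A := fun k a A => by
    obtain ⟨-, C, h1⟩ := hMzk W (√K) hW D hC.hD Λ Cv (by linarith [hC.cv]) k A
    exact (h1 a).1
  -- the claim
  have main : ∀ (k : ℕ) (L : ℝ), 16 ≤ L → L ≤ 2 * K + 4 → ∀ (a : ℝ × ℝ) (A : Mat),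
      A.det = 2 ^ k → tau β₁ β₂ L A ≤ 6 →
      |Rr W G G1 G2 a A| ≤ Bnd β₁ β₂ Ca Cb Ce K D Λ Cv W G1 G2 k L a A := by
    intro k
    induction k with
    | zero =>
      intro L hL hL2 a A hdet htau
      rw [pow_zero] at hdet
      have hdet0 : 0 < A.det := by rw [hdet]; exact one_pos
      have h1 := hTer W G G1 G2 (√K) T hW hG a A
      have h2 : ∀ x, nm (A.tr (G1 x, G2 x)) ≤ 3 * NL β₁ β₂ L (G1 x, G2 x) := by
        intro x
        have h3 := hN6 L A (G1 x, G2 x) (by linarith) hdet0
        unfold TA at h3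
        rw [hdet, div_one] at h3
        have h4 := hNLnn L (G1 x, G2 x)
        have h5 : (nm (A.tr (G1 x, G2 x))) ^ 2 ≤ (3 * NL β₁ β₂ L (G1 x, G2 x)) ^ 2 := by
          nlinarith [mul_le_mul_of_nonneg_right htau (sq_nonneg (NL β₁ β₂ L (G1 x, G2 x)))]
        exact (pow_le_pow_iff_left₀ (IND_nm0 _) (by positivity) two_ne_zero).1 h5
      have h3 : mu (fun x => nm (A.tr (G1 x, G2 x))) a A ≤
          3 * mu (fun x => NL β₁ β₂ L (G1 x, G2 x)) a A := by
        have h4 : Measurable (fun x => nm (A.tr (G1 x, G2 x))) := by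
          have h1 := hG.c1.measurable
          have h2 := hG.c2.measurable
          unfold Mat.tr nm
          fun_prop
        have h5 := IND_mono h4 (h := fun x => 3 * NL β₁ β₂ L (G1 x, G2 x))
          (measurable_const.mul (hNLm L)) (C := 3 * (3 * Real.exp K ^ 2))
          (C' := 3 * (3 * Real.exp K ^ 2))
          (fun x => by
            rw [abs_of_nonneg (IND_nm0 _)]
            have h6 := hNLb L hL hL2 x
            rw [abs_of_nonneg (hNLnn _ _)] at h6
            exact (h2 x).trans (by linarith))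
          (fun x => by
            rw [abs_mul, abs_of_nonneg (by norm_num : (0 : ℝ) ≤ 3)]
            exact mul_le_mul_of_nonneg_left (hNLb L hL hL2 x) (by norm_num)) a A h2
        refine h5.trans (le_of_eq ?_)
        unfold mu
        rw [integral_const_mul]
      have h4 := hmuN L hL hL2 a A
      have h5 := hgp L hL hL2 a A
      have h6 := hph1 L hL hL2 a A
      have h7 := hph2 L hL hL2 a A
      set t := NL β₁ β₂ L (gp G1 G2 a A) with ht
      set P := ph β₁ β₂ G1 G2 L a A with hP
      have ht0 : 0 ≤ t := hNLnn _ _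
      have htP : t ≤ P := by linarith
      have hL0 : 0 < L := by linarith
      have h8 : 1 / L ≤ 1 / 16 := one_div_le_one_div_of_le (by norm_num) hL
      have h8' : 0 < 1 / L := by positivity
      have h9 : 1920 / L * rho L t ≤ 4080 * t := by
        have h10 := ((hRho L (by linarith)).1 t ht0).2
        have h11 : 1920 / L * rho L t ≤ 1920 / L * ((2 * L + 2) * t) :=
          mul_le_mul_of_nonneg_left h10 (by positivity)
        have h12 : 1920 / L * ((2 * L + 2) * t) = (3840 + 3840 * (1 / L)) * t := by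
          field_simp
          ring
        rw [h12] at h11
        nlinarith
      have hFL : 0 ≤ FL β₁ β₂ L A (gp G1 G2 a A) := div_nonneg (sq_nonneg _) (hNLnn _ _)
      have h13 : |Rr W G G1 G2 a A| ≤ √K * (90 * P) := by
        refine h1.trans ?_
        have h14 := mul_le_mul_of_nonneg_left h3 (by positivity : (0 : ℝ) ≤ 30 * √K)
        refine h14.trans ?_
        nlinarith
      have hCb := hC.cb
      have hCa := hC.ca
      have h15 : 90 * P ≤ Ca * ((1 + 1 / L) * P) - Cb * t - 1920 / L * rho L t +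
          40 * FL β₁ β₂ L A (gp G1 G2 a A) := by
        have h16 : Ca * P ≤ Ca * ((1 + 1 / L) * P) := by
          refine mul_le_mul_of_nonneg_left ?_ (by linarith)
          nlinarith
        have h17 : Cb * t ≤ Cb * P := mul_le_mul_of_nonneg_left htP (by linarith)
        nlinarith
      have h18 : 0 ≤ Ce / √K * ((1 + 1 / L) * P) *
          (3 * K + 6 * ((0 : ℕ) : ℝ) - Real.log ((1 + 1 / L) * P) +
            Real.log (Zk D Λ Cv W 0 a A)) := by
        have h19 := hC.ce
        have h20 : Real.log (Zk D Λ Cv W 0 a A) = 0 := by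
          rw [Zk, Real.log_one]
        rw [h20]
        push_cast
        refine mul_nonneg (by positivity) ?_
        linarith
      unfold Bnd
      rw [← ht, ← hP]
      have h21 := mul_le_mul_of_nonneg_left h15 hK0.le
      linarith
    | succ k ih =>
      have inner : ∀ (n : ℕ) (L : ℝ), 16 ≤ L → L ≤ 2 * K + 4 → 2 * K + 4 < 2 ^ n * L →
          ∀ (a : ℝ × ℝ) (A : Mat), A.det = 2 ^ (k + 1) → tau β₁ β₂ L A ≤ 6 →
          |Rr W G G1 G2 a A| ≤ Bnd β₁ β₂ Ca Cb Ce K D Λ Cv W G1 G2 (k + 1) L a A := by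
        intro n
        induction n with
        | zero =>
          intro L hL hL2 hn
          rw [pow_zero, one_mul] at hn
          exact absurd hn (not_lt.2 hL2)
        | succ n ihn =>
          intro L hL hL2 hn a A hdet htau
          have hdet0 : 0 < A.det := by rw [hdet]; positivity
          by_cases hsw : mu (fun x => 1 + nm (G1 x, G2 x)) a A ≤ Real.exp L
          · refine hOne β₁ β₂ Ca Cb Ce K D Λ Cv hC W G G1 G2 (√K) T hW hG k L a A hL hdet0 htau
              hsw ?_
            intro e he hte g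
            refine ih L hL hL2 _ _ ?_ hte
            rw [(hDet A e (hC.net.1 e he)).1, hdet, pow_succ]
            ring
          · have hsw' := not_le.1 hsw
            have h1 : mu (fun x => 1 + nm (G1 x, G2 x)) a A ≤ 1 + 2 * Real.exp K := by
              have h2 : Measurable (fun x => 1 + nm (G1 x, G2 x)) := by
                have h1 := hG.c1.measurable
                have h2 := hG.c2.measurable
                unfold nm
                fun_prop
              have h3 := IND_mono h2 (h := fun _ => 1 + 2 * Real.exp K) measurable_const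
                (C := 1 + 2 * Real.exp K) (C' := 1 + 2 * Real.exp K)
                (fun x => by
                  rw [abs_of_nonneg (by linarith [IND_nm0 (G1 x, G2 x)])]
                  linarith [hnm x])
                (fun x => (abs_of_nonneg (by positivity)).le) a A
                (fun x => by linarith [hnm x])
              rwa [IND_const] at h3
            have h2 : L < K + 2 := by
              have h3 : Real.exp L < Real.exp (K + 2) := by linarith
              exact Real.exp_lt_exp.1 h3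
            refine (ihn (2 * L) (by linarith) (by linarith) ?_ a A hdet
              ((hN7 L A (by linarith) hdet0).trans htau)).trans ?_
            · rw [pow_succ] at hn
              linarith
            · exact hSwi β₁ β₂ Ca Cb Ce K D Λ Cv hC W G1 G2 T ⟨hG.c1.measurable, hG.b1⟩
                ⟨hG.c2.measurable, hG.b2⟩ (k + 1) L a A hL hdet0 htau (hZ _ a A) hsw'
                (hph2 L hL hL2 a A)
      intro L hL hL2 a A hdet htau
      obtain ⟨n, hn⟩ := pow_unbounded_of_one_lt (2 * K + 4) (by norm_num : (1 : ℝ) < 2)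
      refine inner n L hL hL2 ?_ a A hdet htau
      have h1 : (0 : ℝ) < 2 ^ n := by positivity
      nlinarith
  intro k a A hdet htau
  exact main k 16 le_rfl (by linarith) a A hdet htau

end Pool.UMD
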