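import Pool.Agent.H37.UMD.Stmts2

/-!
Ultimate matching, module MZB: the first moments of a folded cell.
-/

set_option autoImplicit false

open MeasureTheory ProbabilityTheory Finset

namespace Pool.UMD

private theorem MZB_absle (x : ℝ) : |x| ≤ Real.exp (x ^ 2 / 4) := by
  have h1 := Real.add_one_le_exp (x ^ 2 / 4)
  have h2 := sq_nonneg (1 - |x| / 2)
  have h3 : |x| ^ 2 = x ^ 2 := sq_abs x
  nlinarith

private theorem MZB_onele (x : ℝ) : 1 ≤ Real.exp (x ^ 2 / 4) := Real.one_le_exp (by positivity)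

/-- one dimensional comparison with the Gaussian of variance two -/
private theorem MZB_one {ω f : ℝ → ℝ} {C : ℝ} (hω0 : ∀ x, 0 ≤ ω x)
    (hω : ∀ x, ω x ≤ Real.exp (x ^ 2 / 4)) (hf : Measurable f) (hf0 : ∀ x, 0 ≤ f x)
    (hf1 : ∀ x, f x ≤ C) : ∫ x, ω x * f x ∂g1 ≤ √2 * ∫ x, f (√2 * x) ∂g1 := by
  have h2 : (0 : ℝ) < √2 := Real.sqrt_pos.2 (by norm_num)
  rw [integral_gaussianReal_eq_integral_smul (by norm_num),
    integral_gaussianReal_eq_integral_smul (by norm_num)]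
  have h3 : ∫ x, gaussianPDFReal 0 1 x • f (√2 * x) =
      |(√2)⁻¹| • ∫ y, gaussianPDFReal 0 1 (y / √2) * f y := by
    rw [← Measure.integral_comp_mul_left (fun y => gaussianPDFReal 0 1 (y / √2) * f y) (√2)]
    refine integral_congr_ae (Filter.Eventually.of_forall fun x => ?_)
    simp only [smul_eq_mul]
    rw [mul_div_cancel_left₀ _ h2.ne']
  rw [h3, smul_eq_mul, abs_of_pos (by positivity), ← mul_assoc, mul_inv_cancel₀ h2.ne', one_mul]
  have hi : Integrable (fun y => gaussianPDFReal 0 1 (y / √2) * f y) := by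
    have h4 : Integrable (fun y => gaussianPDFReal 0 1 (y / √2)) :=
      (integrable_gaussianPDFReal 0 1).comp_div h2.ne'
    refine h4.mul_bdd (c := C) hf.aestronglyMeasurable (Filter.Eventually.of_forall fun y => ?_)
    rw [Real.norm_eq_abs, abs_of_nonneg (hf0 y)]
    exact hf1 y
  refine integral_mono_of_nonneg (Filter.Eventually.of_forall fun x => ?_) hi
    (Filter.Eventually.of_forall fun x => ?_)
  · exact mul_nonneg (gaussianPDFReal_nonneg _ _ _) (mul_nonneg (hω0 x) (hf0 x))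
  · simp only [smul_eq_mul]
    rw [← mul_assoc]
    refine mul_le_mul_of_nonneg_right ?_ (hf0 x)
    unfold gaussianPDFReal
    rw [mul_assoc]
    refine mul_le_mul_of_nonneg_left ?_ (by positivity)
    have h5 : (x / √2 - 0) ^ 2 = x ^ 2 / 2 := by
      rw [sub_zero, div_pow, Real.sq_sqrt (by norm_num)]
    rw [h5]
    have h6 : Real.exp (-(x ^ 2 / 2) / (2 * ((1 : NNReal) : ℝ))) =
        Real.exp (-(x - 0) ^ 2 / (2 * ((1 : NNReal) : ℝ))) * Real.exp (x ^ 2 / 4) := by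
      rw [← Real.exp_add]
      congr 1
      push_cast
      ring
    rw [h6]
    exact mul_le_mul_of_nonneg_left (hω x) (Real.exp_pos _).le

/-- two dimensional comparison -/
private theorem MZB_two {ω₁ ω₂ : ℝ → ℝ} {h : ℝ × ℝ → ℝ} {C : ℝ} (h10 : ∀ x, 0 ≤ ω₁ x)
    (h1 : ∀ x, ω₁ x ≤ Real.exp (x ^ 2 / 4)) (h20 : ∀ x, 0 ≤ ω₂ x)
    (h2 : ∀ x, ω₂ x ≤ Real.exp (x ^ 2 / 4)) (hi1 : Integrable ω₁ g1) (hh : Measurable h)
    (hh0 : ∀ x, 0 ≤ h x) (hh1 : ∀ x, h x ≤ C)
    (hint : Integrable (fun z : ℝ × ℝ => ω₁ z.1 * (ω₂ z.2 * h z)) g2) :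
    ∫ z, ω₁ z.1 * (ω₂ z.2 * h z) ∂g2 ≤ 2 * ∫ z : ℝ × ℝ, h (√2 * z.1, √2 * z.2) ∂g2 := by
  have hC : 0 ≤ C := (hh0 0).trans (hh1 0)
  have hb : ∀ {f : ℝ → ℝ}, (∀ y, 0 ≤ f y) → (∀ y, f y ≤ C) → ∫ y, f y ∂g1 ≤ C := by
    intro f hf0 hf1
    have h3 := norm_integral_le_of_norm_le_const (μ := g1) (f := f) (C := C)
      (Filter.Eventually.of_forall fun x => by
        rw [Real.norm_eq_abs, abs_of_nonneg (hf0 x)]; exact hf1 x)
    have h4 := le_abs_self (∫ y, f y ∂g1)
    rw [← Real.norm_eq_abs] at h4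
    simpa using h4.trans h3
  rw [integral_prod _ hint]
  set k : ℝ → ℝ := fun x => ∫ y, h (x, √2 * y) ∂g1 with hk
  have hkm : Measurable k := by
    have h3 : Measurable (fun z : ℝ × ℝ => h (z.1, √2 * z.2)) := hh.comp (by fun_prop)
    exact (h3.stronglyMeasurable.integral_prod_right').measurable
  have hk0 : ∀ x, 0 ≤ k x := fun x => integral_nonneg fun y => hh0 _
  have hk1 : ∀ x, k x ≤ C := fun x => hb (fun y => hh0 _) (fun y => hh1 _)
  have h3 : ∫ x, ∫ y, ω₁ x * (ω₂ y * h (x, y)) ∂g1 ∂g1 ≤ ∫ x, √2 * (ω₁ x * k x) ∂g1 := by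
    refine integral_mono_of_nonneg (Filter.Eventually.of_forall fun x => ?_) ?_
      (Filter.Eventually.of_forall fun x => ?_)
    · exact integral_nonneg fun y => mul_nonneg (h10 x) (mul_nonneg (h20 y) (hh0 _))
    · refine Integrable.const_mul ?_ _
      refine hi1.mul_bdd (c := C) hkm.aestronglyMeasurable (Filter.Eventually.of_forall fun y => ?_)
      rw [Real.norm_eq_abs, abs_of_nonneg (hk0 y)]
      exact hk1 y
    · simp only
      rw [integral_const_mul]
      have h4 := MZB_one (f := fun y => h (x, y)) h20 h2 (hh.comp (by fun_prop)) (fun y => hh0 _)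
        (fun y => hh1 _)
      have h5 := mul_le_mul_of_nonneg_left h4 (h10 x)
      refine h5.trans (le_of_eq ?_)
      rw [hk]
      ring
  refine h3.trans ?_
  rw [integral_const_mul]
  have h4 := MZB_one h10 h1 hkm hk0 hk1
  have h5 : ∫ z : ℝ × ℝ, h (√2 * z.1, √2 * z.2) ∂g2 = ∫ x, k (√2 * x) ∂g1 := by
    rw [integral_prod]
    refine Integrable.of_bound (hh.comp (by fun_prop)).aestronglyMeasurable C
      (Filter.Eventually.of_forall fun z => ?_)
    rw [Real.norm_eq_abs, abs_of_nonneg (hh0 _)]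
    exact hh1 _
  rw [h5]
  have h6 := mul_le_mul_of_nonneg_left h4 (Real.sqrt_nonneg 2)
  refine h6.trans (le_of_eq ?_)
  rw [← mul_assoc, Real.mul_self_sqrt (by norm_num)]

private theorem MZB_abs : Integrable (fun x : ℝ => |x|) g1 ∧ ∫ x, |x| ∂g1 ≤ 1 := by
  have h2 : MemLp (fun x : ℝ => x) 2 g1 := memLp_id_gaussianReal' 2 (by norm_num)
  have hsq : Integrable (fun x : ℝ => x ^ 2) g1 := h2.integrable_sq
  have h1 : Integrable (fun x : ℝ => |x|) g1 := (h2.integrable (by norm_num)).abs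
  refine ⟨h1, ?_⟩
  have hv : ∫ x, x ^ 2 ∂g1 = 1 := by
    have h3 := variance_fun_id_gaussianReal (μ := 0) (v := 1)
    rw [variance_eq_integral (by fun_prop), integral_id_gaussianReal] at h3
    simpa using h3
  have h4 : ∫ x, |x| ∂g1 ≤ ∫ x, (1 + x ^ 2) / 2 ∂g1 := by
    refine integral_mono h1 (((integrable_const 1).add hsq).div_const 2) fun x => ?_
    have h5 := sq_nonneg (|x| - 1)
    have h6 : |x| ^ 2 = x ^ 2 := sq_abs x
    simp only
    nlinarith
  refine h4.trans (le_of_eq ?_)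
  rw [integral_div, integral_add (integrable_const _) hsq, hv]
  simp

theorem sMzb (hMas : SMas) (_hMmu : SMmu) (hFol : SFol) : SMzb := by
  obtain ⟨C, hC1, hC⟩ := hMas
  refine ⟨C, hC1, ?_⟩
  intro m A a hm hdet hnm
  obtain ⟨hfo, -, hfm⟩ := hFol m hm
  have hm0 : (0 : ℝ) ≤ m := Nat.cast_nonneg m
  have hF : Measurable (fun z : ℝ × ℝ => a + A.ap z) := by
    unfold Mat.ap
    fun_prop
  have hiqm : ∀ i j, Measurable (iq m i j) := fun i j =>
    (hfm fun i' j' => if i' = i ∧ j' = j then 1 else 0).1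
  have hiq0 : ∀ i j x, 0 ≤ iq m i j x := fun i j x => by
    unfold iq
    split_ifs <;> norm_num
  have hiq1 : ∀ i j x, iq m i j x ≤ 1 := fun i j x => by
    unfold iq
    split_ifs <;> norm_num
  have hsum : ∀ x, ∑ i ∈ range m, ∑ j ∈ range m, iq m i j x = 1 := by
    intro x
    have h1 : ∀ i ∈ range m, ∑ j ∈ range m, iq m i j x = if fo m ⌊x.1⌋ = i then 1 else 0 := by
      intro i _
      by_cases h2 : fo m ⌊x.1⌋ = i
      · rw [if_pos h2]
        unfold iq
        simp only [h2, true_and]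
        rw [Finset.sum_ite_eq, if_pos (Finset.mem_range.2 (hfo _))]
      · rw [if_neg h2]
        unfold iq
        simp only [h2, false_and, if_false, Finset.sum_const_zero]
    rw [Finset.sum_congr rfl h1, Finset.sum_ite_eq, if_pos (Finset.mem_range.2 (hfo _))]
  obtain ⟨habi, hab1⟩ := MZB_abs
  have hI1 : Integrable (fun z : ℝ × ℝ => |z.1|) g2 := habi.comp_fst g1
  have hI2 : Integrable (fun z : ℝ × ℝ => |z.2|) g2 := habi.comp_snd g1
  have hE1 : ∫ z : ℝ × ℝ, |z.1| ∂g2 ≤ 1 := by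
    rw [integral_fun_fst (μ := g1) (ν := g1) (fun x => |x|)]
    simpa using hab1
  have hE2 : ∫ z : ℝ × ℝ, |z.2| ∂g2 ≤ 1 := by
    rw [integral_fun_snd (μ := g1) (ν := g1) (fun x => |x|)]
    simpa using hab1
  have hqi : ∀ i j, Integrable (fun z => iq m i j (a + A.ap z)) g2 := fun i j =>
    Integrable.of_bound ((hiqm i j).comp hF).aestronglyMeasurable 1
      (Filter.Eventually.of_forall fun z => by
        rw [Real.norm_eq_abs, abs_of_nonneg (hiq0 _ _ _)]; exact hiq1 _ _ _)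
  have hw : ∀ {ω : ℝ × ℝ → ℝ}, Integrable ω g2 → ∀ i j,
      Integrable (fun z => ω z * iq m i j (a + A.ap z)) g2 := fun hω i j =>
    hω.mul_bdd (c := 1) ((hiqm i j).comp hF).aestronglyMeasurable
      (Filter.Eventually.of_forall fun z => by
        rw [Real.norm_eq_abs, abs_of_nonneg (hiq0 _ _ _)]; exact hiq1 _ _ _)
  -- the larger matrix
  have h2 : (0 : ℝ) < √2 := Real.sqrt_pos.2 (by norm_num)
  have h22 : √2 * √2 = 2 := Real.mul_self_sqrt (by norm_num)
  set A2 : Mat := ⟨√2 * A.a, √2 * A.b, √2 * A.c, √2 * A.d⟩ with hA2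
  have hdet2 : A2.det = 2 * A.det := by
    unfold Mat.det
    rw [hA2]
    simp only
    linear_combination (A.a * A.d - A.b * A.c) * h22
  have hap2 : ∀ z : ℝ × ℝ, A.ap (√2 * z.1, √2 * z.2) = A2.ap z := by
    intro z
    unfold Mat.ap
    rw [hA2]
    ext
    · simp only
      ring
    · simp only
      ring
  have hnm2 : ∀ z, nm (A2.ap z) ≤ 4 * m * nm z := by
    intro z
    have h3 : nm (A2.ap z) = √2 * nm (A.ap z) := by
      unfold nm
      rw [← Real.sqrt_mul (by norm_num)]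
      congr 1
      have h4 : A2.ap z = (√2 * (A.ap z).1, √2 * (A.ap z).2) := by
        unfold Mat.ap
        rw [hA2]
        ext
        · simp only
          ring
        · simp only
          ring
      rw [h4]
      simp only [mul_pow, Real.sq_sqrt (show (0 : ℝ) ≤ 2 by norm_num)]
      ring
    rw [h3]
    have h4 : √2 ≤ 2 := by
      rw [Real.sqrt_le_left (by norm_num)]
      norm_num
    have h5 : 0 ≤ nm z := Real.sqrt_nonneg _
    have h6 : 0 ≤ nm (A.ap z) := Real.sqrt_nonneg _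
    calc √2 * nm (A.ap z) ≤ 2 * (2 * m * nm z) := mul_le_mul h4 (hnm z) h6 (by norm_num)
      _ = 4 * m * nm z := by ring
  have hmas2 : ∀ i j, 2 * mu (iq m i j) a A2 ≤ C / A.det := by
    intro i j
    have h3 := hC m i j A2 a hm (by rw [hdet2]; positivity) hnm2
    rw [hdet2] at h3
    have h4 : C / (2 * A.det) = C / A.det / 2 := by field_simp
    rw [h4] at h3
    linarith
  have hcmp1 : ∀ i j, ∫ z : ℝ × ℝ, |z.1| * iq m i j (a + A.ap z) ∂g2 ≤ C / A.det := by
    intro i j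
    have h3 := MZB_two (ω₁ := fun x => |x|) (ω₂ := fun _ => 1)
      (h := fun z => iq m i j (a + A.ap z)) (C := 1) (fun x => abs_nonneg x) MZB_absle
      (fun _ => zero_le_one) MZB_onele habi ((hiqm i j).comp hF) (fun x => hiq0 _ _ _)
      (fun x => hiq1 _ _ _) (by simpa using hw hI1 i j)
    simp only [one_mul, hap2] at h3
    exact h3.trans (hmas2 i j)
  have hcmp2 : ∀ i j, ∫ z : ℝ × ℝ, |z.2| * iq m i j (a + A.ap z) ∂g2 ≤ C / A.det := by
    intro i j
    have h3 := MZB_two (ω₁ := fun _ => 1) (ω₂ := fun x => |x|)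
      (h := fun z => iq m i j (a + A.ap z)) (C := 1) (fun _ => zero_le_one) MZB_onele
      (fun x => abs_nonneg x) MZB_absle (integrable_const _) ((hiqm i j).comp hF)
      (fun x => hiq0 _ _ _) (fun x => hiq1 _ _ _) (by simpa using hw hI2 i j)
    simp only [one_mul, hap2] at h3
    exact h3.trans (hmas2 i j)
  have habsz : ∀ (ω : ℝ × ℝ → ℝ) (i j : ℕ), |∫ z, ω z * iq m i j (a + A.ap z) ∂g2| ≤
      ∫ z, |ω z| * iq m i j (a + A.ap z) ∂g2 := by
    intro ω i j
    refine abs_integral_le_integral_abs.trans (le_of_eq ?_)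
    refine integral_congr_ae (Filter.Eventually.of_forall fun z => ?_)
    simp only
    rw [abs_mul, abs_of_nonneg (hiq0 _ _ _)]
  have hmz1 : ∀ i j, |(mz (iq m i j) a A).1| ≤ ∫ z : ℝ × ℝ, |z.1| * iq m i j (a + A.ap z) ∂g2 :=
    fun i j => habsz (fun z => z.1) i j
  have hmz2 : ∀ i j, |(mz (iq m i j) a A).2| ≤ ∫ z : ℝ × ℝ, |z.2| * iq m i j (a + A.ap z) ∂g2 :=
    fun i j => habsz (fun z => z.2) i j
  have hsumω : ∀ {ω : ℝ × ℝ → ℝ}, Integrable ω g2 →
      ∑ i ∈ range m, ∑ j ∈ range m, ∫ z, ω z * iq m i j (a + A.ap z) ∂g2 = ∫ z, ω z ∂g2 := by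
    intro ω hω
    have h3 : ∀ i ∈ range m, ∑ j ∈ range m, ∫ z, ω z * iq m i j (a + A.ap z) ∂g2 =
        ∫ z, ∑ j ∈ range m, ω z * iq m i j (a + A.ap z) ∂g2 := fun i _ =>
      (integral_finset_sum _ fun j _ => hw hω i j).symm
    rw [Finset.sum_congr rfl h3, ← integral_finset_sum _ fun i _ =>
      integrable_finset_sum _ fun j _ => hw hω i j]
    refine integral_congr_ae (Filter.Eventually.of_forall fun z => ?_)
    simp only
    simp_rw [← Finset.mul_sum]
    rw [hsum, mul_one]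
  refine ⟨fun i j => ⟨integral_nonneg fun z => hiq0 _ _ _, ?_, (hmz1 i j).trans (hcmp1 i j),
    (hmz2 i j).trans (hcmp2 i j)⟩, ?_, ?_, ?_⟩
  · refine hC m i j A a hm hdet fun z => (hnm z).trans ?_
    have h5 : 0 ≤ nm z := Real.sqrt_nonneg _
    nlinarith [mul_nonneg hm0 h5]
  · have h3 := hsumω (ω := fun _ => 1) (integrable_const _)
    simp only [one_mul, integral_const, probReal_univ, smul_eq_mul, mul_one] at h3
    exact h3.le
  · have h3 := hsumω hI1
    calc ∑ i ∈ range m, ∑ j ∈ range m, |(mz (iq m i j) a A).1|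
        ≤ ∑ i ∈ range m, ∑ j ∈ range m, ∫ z : ℝ × ℝ, |z.1| * iq m i j (a + A.ap z) ∂g2 :=
          Finset.sum_le_sum fun i _ => Finset.sum_le_sum fun j _ => hmz1 i j
      _ = ∫ z : ℝ × ℝ, |z.1| ∂g2 := h3
      _ ≤ 1 := hE1
  · have h3 := hsumω hI2
    calc ∑ i ∈ range m, ∑ j ∈ range m, |(mz (iq m i j) a A).2|
        ≤ ∑ i ∈ range m, ∑ j ∈ range m, ∫ z : ℝ × ℝ, |z.2| * iq m i j (a + A.ap z) ∂g2 :=
          Finset.sum_le_sum fun i _ => Finset.sum_le_sum fun j _ => hmz2 i j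
      _ = ∫ z : ℝ × ℝ, |z.2| ∂g2 := h3
      _ ≤ 1 := hE2

end Pool.UMD
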