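import Pool.Agent.H37.UMD.Stmts

/-!
Ultimate matching, module RHO: properties of the radial energy function.
-/

set_option autoImplicit false

open MeasureTheory ProbabilityTheory

namespace Pool.UMD

/-- `v (log v - log u) - v + u ≥ (v - u)² / (3 max)` -/
private theorem RHO_core {u v : ℝ} (hu : 0 < u) (hv : 0 < v) :
    (v - u) ^ 2 ≤ 3 * max u v * (v * (Real.log v - Real.log u) - v + u) := by
  set p := √(√u) with hp
  set q := √(√v) with hq
  have hp0 : 0 < p := Real.sqrt_pos.2 (Real.sqrt_pos.2 hu)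
  have hq0 : 0 < q := Real.sqrt_pos.2 (Real.sqrt_pos.2 hv)
  have hp4 : u = p ^ 4 := by
    have h1 : p ^ 2 = √u := Real.sq_sqrt (Real.sqrt_nonneg _)
    have h2 : p ^ 4 = (p ^ 2) ^ 2 := by ring
    rw [h2, h1, Real.sq_sqrt hu.le]
  have hq4 : v = q ^ 4 := by
    have h1 : q ^ 2 = √v := Real.sq_sqrt (Real.sqrt_nonneg _)
    have h2 : q ^ 4 = (q ^ 2) ^ 2 := by ring
    rw [h2, h1, Real.sq_sqrt hv.le]
  clear_value p q
  subst hp4
  subst hq4
  have hlog : 4 * (1 - p / q) ≤ Real.log (q ^ 4) - Real.log (p ^ 4) := by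
    have h1 := Real.one_sub_inv_le_log_of_pos (div_pos hq0 hp0)
    rw [inv_div, Real.log_div hq0.ne' hp0.ne'] at h1
    rw [Real.log_pow, Real.log_pow]
    push_cast
    linarith
  have hD : (q - p) ^ 2 * (3 * q ^ 2 + 2 * p * q + p ^ 2) ≤
      q ^ 4 * (Real.log (q ^ 4) - Real.log (p ^ 4)) - q ^ 4 + p ^ 4 := by
    have h1 := mul_le_mul_of_nonneg_left hlog (by positivity : (0 : ℝ) ≤ q ^ 4)
    have h2 : q ^ 4 * (4 * (1 - p / q)) = 4 * q ^ 4 - 4 * p * q ^ 3 := by
      field_simp
    rw [h2] at h1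
    have h3 : (q - p) ^ 2 * (3 * q ^ 2 + 2 * p * q + p ^ 2) =
        4 * q ^ 4 - 4 * p * q ^ 3 - q ^ 4 + p ^ 4 := by ring
    rw [h3]
    linarith
  have hmax : (q + p) ^ 2 * (q ^ 2 + p ^ 2) ^ 2 ≤
      3 * max (p ^ 4) (q ^ 4) * (3 * q ^ 2 + 2 * p * q + p ^ 2) := by
    rcases le_total p q with h | h
    · rw [max_eq_right (pow_le_pow_left₀ hp0.le h 4)]
      obtain ⟨d, rfl⟩ : ∃ d, q = p + d := ⟨q - p, by ring⟩
      have hd : 0 ≤ d := by linarith
      rw [← sub_nonneg]
      have e : 3 * (p + d) ^ 4 * (3 * (p + d) ^ 2 + 2 * p * (p + d) + p ^ 2) -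
          ((p + d) + p) ^ 2 * ((p + d) ^ 2 + p ^ 2) ^ 2 =
          2 * p ^ 6 + 48 * p ^ 5 * d + 145 * p ^ 4 * d ^ 2 + 196 * p ^ 3 * d ^ 3 +
          140 * p ^ 2 * d ^ 4 + 52 * p * d ^ 5 + 8 * d ^ 6 := by ring
      rw [e]
      positivity
    · rw [max_eq_left (pow_le_pow_left₀ hq0.le h 4)]
      obtain ⟨d, rfl⟩ : ∃ d, p = q + d := ⟨p - q, by ring⟩
      have hd : 0 ≤ d := by linarith
      rw [← sub_nonneg]
      have e : 3 * (q + d) ^ 4 * (3 * q ^ 2 + 2 * (q + d) * q + (q + d) ^ 2) -
          (q + (q + d)) ^ 2 * (q ^ 2 + (q + d) ^ 2) ^ 2 =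
          2 * q ^ 6 + 36 * q ^ 5 * d + 91 * q ^ 4 * d ^ 2 + 100 * q ^ 3 * d ^ 3 +
          56 * q ^ 2 * d ^ 4 + 16 * q * d ^ 5 + 2 * d ^ 6 := by ring
      rw [e]
      positivity
  have hmax0 : 0 ≤ 3 * max (p ^ 4) (q ^ 4) := by positivity
  calc (q ^ 4 - p ^ 4) ^ 2 = (q - p) ^ 2 * ((q + p) ^ 2 * (q ^ 2 + p ^ 2) ^ 2) := by ring
    _ ≤ (q - p) ^ 2 * (3 * max (p ^ 4) (q ^ 4) * (3 * q ^ 2 + 2 * p * q + p ^ 2)) :=
        mul_le_mul_of_nonneg_left hmax (sq_nonneg _)
    _ = 3 * max (p ^ 4) (q ^ 4) * ((q - p) ^ 2 * (3 * q ^ 2 + 2 * p * q + p ^ 2)) := by ring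
    _ ≤ _ := mul_le_mul_of_nonneg_left hD hmax0

private theorem RHO_exp {l : ℝ} (hl : 1 ≤ l) : 1 / 3 ≤ l - 1 + Real.exp (-l) := by
  have h1 : Real.exp (-1) * (2 - l) ≤ Real.exp (-l) := by
    have h2 := Real.add_one_le_exp (1 - l)
    have h3 : Real.exp (-l) = Real.exp (-1) * Real.exp (1 - l) := by
      rw [← Real.exp_add]
      congr 1
      ring
    rw [h3]
    exact mul_le_mul_of_nonneg_left (by linarith) (Real.exp_pos _).le
  have h4 : 1 / 3 ≤ Real.exp (-1) := by
    rw [Real.exp_neg, one_div]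
    exact inv_anti₀ (Real.exp_pos _) (by linarith [Real.exp_one_lt_d9])
  have h5 : Real.exp (-1) ≤ 1 := Real.exp_le_one_iff.2 (by norm_num)
  nlinarith

theorem sRho : SRho := by
  intro L hL
  set S := 2 * L + 2 with hS0
  have hSge : 4 ≤ S := by linarith
  have hexp : 1 ≤ Real.exp S := Real.one_le_exp (by linarith)
  -- values below the threshold
  have hlow0 : ∀ u, 1 ≤ u → 0 ≤ u * Real.log u - u + 1 := by
    intro u hu
    have h1 := Real.one_sub_inv_le_log_of_pos (by linarith : 0 < u)
    have h2 := mul_le_mul_of_nonneg_left h1 (by linarith : (0 : ℝ) ≤ u)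
    have h3 : u * (1 - u⁻¹) = u - 1 := by
      have : u ≠ 0 := by linarith
      field_simp
    linarith
  have hconv : ∀ u v, 0 < u → 0 < v →
      0 ≤ v * (Real.log v - Real.log u) - v + u := by
    intro u v hu hv
    have h1 := RHO_core hu hv
    have h2 : 0 < 3 * max u v := by positivity
    by_contra hcon
    have h3 := mul_neg_of_pos_of_neg h2 (not_le.1 hcon)
    have h4 := sq_nonneg (v - u)
    linarith
  have hmono : ∀ s t, 0 ≤ s → s ≤ t → rho L s ≤ rho L t := by
    intro s t hs hst
    unfold rho hS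
    split_ifs with h1 h2 h2
    · have h3 := hconv (1 + s) (1 + t) (by linarith) (by linarith)
      have h4 : 0 ≤ Real.log (1 + s) := Real.log_nonneg (by linarith)
      nlinarith
    · have h3 := hconv (1 + s) (Real.exp S) (by linarith) (Real.exp_pos _)
      rw [Real.log_exp] at h3
      have h4 : 0 ≤ Real.log (1 + s) := Real.log_nonneg (by linarith)
      have h5 : Real.exp S < 1 + t := not_le.1 h2
      have h6 := mul_le_mul_of_nonneg_left h5.le (by linarith : 0 ≤ S)
      have h7 := mul_le_mul_of_nonneg_left h1 h4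
      nlinarith
    · exact absurd (le_trans (by linarith) h2) h1
    · nlinarith
  refine ⟨fun t ht => ⟨?_, ?_⟩, hmono, ?_, ?_⟩
  · have h1 := hmono 0 t le_rfl ht
    have h2 : rho L 0 = 0 := by
      unfold rho hS
      rw [add_zero, if_pos hexp]
      simp
    linarith
  · unfold rho hS
    split_ifs with h1
    · have h2 : Real.log (1 + t) ≤ t := by
        have := Real.log_le_sub_one_of_pos (by linarith : 0 < 1 + t)
        linarith
      have h3 : Real.log (1 + t) ≤ S := by
        rw [← Real.log_exp S]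
        exact Real.log_le_log (by linarith) h1
      have h4 : (1 + t) * Real.log (1 + t) - (1 + t) + 1 = Real.log (1 + t) * t +
        (Real.log (1 + t) - t) := by ring
      rw [h4]
      have h5 := mul_le_mul_of_nonneg_right h3 ht
      linarith
    · have h2 := Real.add_one_le_exp S
      linarith
  · have h1 : Measurable (hS S) := by
      unfold hS
      refine Measurable.ite (measurableSet_le measurable_id measurable_const) ?_ ?_
      · fun_prop
      · fun_prop
    exact h1.comp (measurable_const.add measurable_id)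
  · intro s t hs ht hsL
    have hu : 0 < 1 + s := by linarith
    have hv : 0 < 1 + t := by linarith
    have hmax : max (1 + s) (1 + t) = 1 + max s t := by
      rw [max_add_add_left]
    have hm0 : 0 < 3 * (1 + max s t) := by
      have : 0 ≤ max s t := hs.trans (le_max_left _ _)
      positivity
    have hsS : 1 + s ≤ Real.exp S := hsL.trans (Real.exp_le_exp.2 (by linarith))
    rw [div_le_iff₀ hm0]
    unfold rho hS
    rw [if_pos hsS]
    split_ifs with h1
    · have h2 := RHO_core hu hv
      rw [hmax] at h2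
      have h3 : (1 + t - (1 + s)) ^ 2 = (t - s) ^ 2 := by ring
      rw [h3] at h2
      refine h2.trans (le_of_eq ?_)
      ring
    · have h2 : Real.exp S < 1 + t := not_le.1 h1
      set l := S - Real.log (1 + s) with hl
      have hl1 : 1 ≤ l := by
        have : Real.log (1 + s) ≤ 2 * L + 1 := by
          rw [← Real.log_exp (2 * L + 1)]
          exact Real.log_le_log hu hsL
        linarith
      have hexpl : Real.exp S = (1 + s) * Real.exp l := by
        rw [hl, Real.exp_sub, Real.exp_log hu]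
        field_simp
      have hst : s ≤ t := by linarith
      rw [max_eq_right hst]
      have h3 : (1 + s) * Real.exp l < 1 + t := by rwa [← hexpl]
      have h4 : 1 + s ≤ (1 + t) * Real.exp (-l) := by
        have h5 := mul_le_mul_of_nonneg_right h3.le (Real.exp_pos (-l)).le
        rw [mul_assoc, ← Real.exp_add, add_neg_cancel, Real.exp_zero, mul_one] at h5
        exact h5
      -- lower bound of the right side
      have h6 : (1 + t) / 3 ≤ S * (1 + t) - Real.exp S + 1 -
          ((1 + s) * Real.log (1 + s) - (1 + s) + 1) - Real.log (1 + s) * (t - s) := by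
        have h7 : S * (1 + t) - Real.exp S + 1 -
          ((1 + s) * Real.log (1 + s) - (1 + s) + 1) - Real.log (1 + s) * (t - s) =
          l * (1 + t) - (1 + s) * (Real.exp l - 1) := by
          rw [hexpl, hl]
          ring
        rw [h7]
        have h8 : 0 ≤ Real.exp l - 1 := by
          have := Real.one_le_exp (by linarith : 0 ≤ l)
          linarith
        have h9 := mul_le_mul_of_nonneg_right h4 h8
        have h10 : (1 + t) * Real.exp (-l) * (Real.exp l - 1) = (1 + t) * (1 - Real.exp (-l)) := by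
          have : Real.exp (-l) * Real.exp l = 1 := by rw [← Real.exp_add]; simp
          linear_combination (1 + t) * this
        rw [h10] at h9
        have h11 := mul_le_mul_of_nonneg_left (RHO_exp hl1) hv.le
        linarith
      have h12 : (t - s) ^ 2 ≤ (1 + t) ^ 2 := by
        apply pow_le_pow_left₀ <;> linarith
      calc (t - s) ^ 2 ≤ (1 + t) / 3 * (3 * (1 + t)) := by
            refine h12.trans (le_of_eq ?_)
            ring
        _ ≤ _ := mul_le_mul_of_nonneg_right h6 (by positivity)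

end Pool.UMD
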