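import Pool.Agent.H37.UMD.Stmts

/-!
Ultimate matching, module TER: the terminal bound (by two one-dimensional steps with the Stein
kernel).
-/

set_option autoImplicit false

open MeasureTheory ProbabilityTheory

namespace Pool.UMD

private theorem TER_abs : ∫ x, |x| ∂g1 ≤ 1 := by
  have h2 : MemLp (fun x : ℝ => x) 2 g1 := memLp_id_gaussianReal' 2 (by norm_num)
  have hsq : Integrable (fun x : ℝ => x ^ 2) g1 := h2.integrable_sq
  have h1 : Integrable (fun x : ℝ => |x|) g1 := (h2.integrable (by norm_num)).abs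
  have hv : ∫ x, x ^ 2 ∂g1 = 1 := by
    have h3 := variance_fun_id_gaussianReal (μ := 0) (v := 1)
    rw [variance_eq_integral (by fun_prop), integral_id_gaussianReal] at h3
    simpa using h3
  have h4 : ∫ x, |x| ∂g1 ≤ ∫ x, (1 + x ^ 2) / 2 ∂g1 := by
    refine integral_mono h1 (((integrable_const 1).add hsq).div_const 2) fun x => ?_
    have h5 := sq_nonneg (|x| - 1)
    have h6 : |x| ^ 2 = x ^ 2 := sq_abs x
    simp only
    nlinarith
  refine h4.trans (le_of_eq ?_)
  rw [integral_div, integral_add (integrable_const _) hsq, hv]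
  simp

private theorem TER_bd_int {f : ℝ → ℝ} (hf : Measurable f) {C : ℝ} (hC : ∀ x, |f x| ≤ C) :
    Integrable f g1 :=
  Integrable.of_bound hf.aestronglyMeasurable C (Filter.Eventually.of_forall fun _ => hC _)

/-- one dimensional step -/
private theorem TER_step (hSte : SSte) (hMst : SMst) {u r r' : ℝ → ℝ} {M M' B : ℝ}
    (hu : Measurable u) (hub : ∀ g, |u g| ≤ M) (hr : ∀ g, HasDerivAt r (r' g) g)
    (hr' : Continuous r') (hrb' : ∀ g, |r' g| ≤ M') (hrb : ∀ g, |r g| ≤ B) :
    |∫ g, u g * r g ∂g1 - (∫ g, u g ∂g1) * ∫ g, r g ∂g1| ≤ 3 * M * ∫ g, |r' g| ∂g1 := by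
  have hrc : Continuous r := continuous_iff_continuousAt.2 fun g => (hr g).continuousAt
  have hri : Integrable r g1 := TER_bd_int hrc.measurable hrb
  have huri : Integrable (fun g => u g * r g) g1 := by
    refine TER_bd_int (hu.mul hrc.measurable) (C := M * B) fun x => ?_
    rw [abs_mul]
    exact mul_le_mul (hub x) (hrb x) (abs_nonneg _) ((abs_nonneg _).trans (hub x))
  have h1 := hSte u r r' (max M M') hu (fun g => (hub g).trans (le_max_left _ _)) hr hr'
    (fun g => (hrb' g).trans (le_max_right _ _))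
  have h2 : ∫ g, (u g - ∫ s, u s ∂g1) * r g ∂g1 =
      ∫ g, u g * r g ∂g1 - (∫ g, u g ∂g1) * ∫ g, r g ∂g1 := by
    simp_rw [sub_mul]
    rw [integral_sub huri (hri.const_mul _), integral_const_mul]
  rw [← h2, h1]
  obtain ⟨-, h3⟩ := hMst (fun _ => u) M (by fun_prop) (fun _ t => hub t)
  have h4 : ∀ g, |stk u g| ≤ 3 * M := fun g => h3 0 g
  have hr'i : Integrable (fun g => |r' g|) g1 :=
    (TER_bd_int hr'.measurable hrb').abs
  have h5 := norm_integral_le_of_norm_le (μ := g1) (f := fun g => stk u g * r' g)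
    (hr'i.const_mul (3 * M)) (Filter.Eventually.of_forall fun g => by
      rw [norm_mul, Real.norm_eq_abs, Real.norm_eq_abs]
      exact mul_le_mul_of_nonneg_right (h4 g) (abs_nonneg _))
  rw [integral_const_mul, Real.norm_eq_abs] at h5
  exact h5

theorem sTer (hSte : SSte) (hMst : SMst) (hDer : SDer) (hCnt : SCnt) : STer := by
  intro W G G1 G2 M T hW hG a A
  have hM0 : 0 ≤ M := (abs_nonneg _).trans (hW.2 0)
  have hT0 : 0 ≤ T := (abs_nonneg _).trans (hG.b0 0)
  have hF : Measurable (fun z : ℝ × ℝ => a + A.ap z) := by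
    unfold Mat.ap
    fun_prop
  have hFc : Continuous (fun z : ℝ × ℝ => a + A.ap z) := by
    unfold Mat.ap
    fun_prop
  set w : ℝ × ℝ → ℝ := fun z => W (a + A.ap z) with hw
  set γ : ℝ × ℝ → ℝ := fun z => G (a + A.ap z) with hγ
  set d1 : ℝ × ℝ → ℝ := fun z => A.a * G1 (a + A.ap z) + A.c * G2 (a + A.ap z) with hd1
  set d2 : ℝ × ℝ → ℝ := fun z => A.b * G1 (a + A.ap z) + A.d * G2 (a + A.ap z) with hd2
  have hwm : Measurable w := hW.1.comp hF
  have hwb : ∀ z, |w z| ≤ M := fun z => hW.2 _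
  have hγc : Continuous γ := hG.c0.comp hFc
  have hγb : ∀ z, |γ z| ≤ T := fun z => hG.b0 _
  have hd1c : Continuous d1 :=
    (continuous_const.mul (hG.c1.comp hFc)).add (continuous_const.mul (hG.c2.comp hFc))
  have hd2c : Continuous d2 :=
    (continuous_const.mul (hG.c1.comp hFc)).add (continuous_const.mul (hG.c2.comp hFc))
  have hlin : ∀ (p q : ℝ) (x : ℝ × ℝ), |p * G1 x + q * G2 x| ≤ (|p| + |q|) * T := by
    intro p q x
    refine (abs_add_le _ _).trans ?_
    rw [abs_mul, abs_mul, add_mul]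
    exact add_le_add (mul_le_mul_of_nonneg_left (hG.b1 x) (abs_nonneg _))
      (mul_le_mul_of_nonneg_left (hG.b2 x) (abs_nonneg _))
  have hd1b : ∀ z, |d1 z| ≤ (|A.a| + |A.c|) * T := fun z => hlin _ _ _
  have hd2b : ∀ z, |d2 z| ≤ (|A.b| + |A.d|) * T := fun z => hlin _ _ _
  have hint : ∀ {f : ℝ × ℝ → ℝ} {C : ℝ}, Measurable f → (∀ z, |f z| ≤ C) → Integrable f g2 :=
    fun hf hC => Integrable.of_bound hf.aestronglyMeasurable _
      (Filter.Eventually.of_forall fun _ => hC _)
  have hwi : Integrable w g2 := hint hwm hwb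
  have hγi : Integrable γ g2 := hint hγc.measurable hγb
  have hwγb : ∀ z, |w z * γ z| ≤ M * T := fun z => by
    rw [abs_mul]
    exact mul_le_mul (hwb z) (hγb z) (abs_nonneg _) hM0
  have hwγm : Measurable (fun z => w z * γ z) := hwm.mul hγc.measurable
  have hwγi : Integrable (fun z => w z * γ z) g2 := hint hwγm hwγb
  have hd1i : Integrable (fun z => |d1 z|) g2 := (hint hd1c.measurable hd1b).abs
  have hd2i : Integrable (fun z => |d2 z|) g2 := (hint hd2c.measurable hd2b).abs
  -- means over the first coordinate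
  set wb : ℝ → ℝ := fun y => ∫ x, w (x, y) ∂g1 with hwb'
  set gb : ℝ → ℝ := fun y => ∫ x, γ (x, y) ∂g1 with hgb'
  have hmean_b : ∀ {f : ℝ × ℝ → ℝ} {C : ℝ}, (∀ z, |f z| ≤ C) →
      ∀ y, |∫ x, f (x, y) ∂g1| ≤ C := by
    intro f C hC y
    have h1 := norm_integral_le_of_norm_le_const (μ := g1) (f := fun x => f (x, y)) (C := C)
      (Filter.Eventually.of_forall fun x => hC (x, y))
    simpa using h1
  have hwbm : Measurable wb := (hwm.stronglyMeasurable.integral_prod_left').measurable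
  have hwbb : ∀ y, |wb y| ≤ M := hmean_b hwb
  have hgbb : ∀ y, |gb y| ≤ T := hmean_b hγb
  -- the first step
  have hs1 : ∀ y, |∫ x, w (x, y) * γ (x, y) ∂g1 - wb y * gb y| ≤
      3 * M * ∫ x, |d1 (x, y)| ∂g1 := by
    intro y
    refine TER_step hSte hMst (u := fun x => w (x, y)) (r := fun x => γ (x, y))
      (r' := fun x => d1 (x, y)) (hwm.comp (by fun_prop)) (fun x => hwb _) (fun x => ?_)
      (hd1c.comp (by fun_prop)) (fun x => hd1b _) (fun x => hγb _)
    have h1 := hG.der (a + A.ap (0, y)) (A.a, A.c) x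
    have h2 : ∀ s : ℝ, a + A.ap (0, y) + s • ((A.a, A.c) : ℝ × ℝ) = a + A.ap (s, y) := by
      intro s
      unfold Mat.ap
      ext
      · simp
        ring
      · simp
        ring
    simp only [h2] at h1
    exact h1
  -- the derivative of the mean
  set A' : Mat := ⟨A.a, 0, A.c, 0⟩ with hA'
  have hmu' : ∀ (f : ℝ × ℝ → ℝ) (s : ℝ), mu f (a + s • ((A.b, A.d) : ℝ × ℝ)) A' =
      ∫ x, f (a + A.ap (x, s)) ∂g1 := by
    intro f s
    unfold mu
    have h1 : ∀ z : ℝ × ℝ, a + s • ((A.b, A.d) : ℝ × ℝ) + A'.ap z = a + A.ap (z.1, s) := by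
      intro z
      unfold Mat.ap
      ext
      · simp [hA']
        ring
      · simp [hA']
        ring
    simp_rw [h1]
    rw [integral_fun_fst (μ := g1) (ν := g1) (fun x => f (a + A.ap (x, s)))]
    simp
  have hsec : ∀ {f : ℝ × ℝ → ℝ} {C : ℝ}, Continuous f → (∀ z, |f z| ≤ C) → ∀ y : ℝ,
      Integrable (fun x => f (a + A.ap (x, y))) g1 := by
    intro f C hf hC y
    exact TER_bd_int (hf.comp (hFc.comp (by fun_prop))).measurable fun x => hC _
  have hder2 : ∀ y, HasDerivAt gb (∫ x, d2 (x, y) ∂g1) y := by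
    intro y
    have h1 := hDer G G1 G2 T hG a (A.b, A.d) A' y
    simp only [hmu'] at h1
    refine h1.congr_deriv ?_
    rw [hd2]
    simp only
    rw [integral_add ((hsec hG.c1 hG.b1 y).const_mul _) ((hsec hG.c2 hG.b2 y).const_mul _),
      integral_const_mul, integral_const_mul]
  have hder2c : Continuous (fun y => ∫ x, d2 (x, y) ∂g1) := by
    have h1 := (hCnt G1 T hG.c1 hG.b1 A').comp
      (by fun_prop : Continuous fun s : ℝ => a + s • ((A.b, A.d) : ℝ × ℝ))
    have h2 := (hCnt G2 T hG.c2 hG.b2 A').comp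
      (by fun_prop : Continuous fun s : ℝ => a + s • ((A.b, A.d) : ℝ × ℝ))
    have h3 : (fun y => ∫ x, d2 (x, y) ∂g1) = fun y =>
        A.b * mu G1 (a + y • ((A.b, A.d) : ℝ × ℝ)) A' +
          A.d * mu G2 (a + y • ((A.b, A.d) : ℝ × ℝ)) A' := by
      funext y
      rw [hmu', hmu', hd2]
      simp only
      rw [integral_add ((hsec hG.c1 hG.b1 y).const_mul _) ((hsec hG.c2 hG.b2 y).const_mul _),
        integral_const_mul, integral_const_mul]
    rw [h3]
    exact (continuous_const.mul h1).add (continuous_const.mul h2)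
  -- the second step
  have hs2 : |∫ y, wb y * gb y ∂g1 - (∫ y, wb y ∂g1) * ∫ y, gb y ∂g1| ≤
      3 * M * ∫ y, |∫ x, d2 (x, y) ∂g1| ∂g1 :=
    TER_step hSte hMst hwbm hwbb hder2 hder2c (hmean_b hd2b) hgbb
  -- Fubini
  have fub : ∀ {f : ℝ × ℝ → ℝ}, Integrable f g2 → ∫ z, f z ∂g2 = ∫ y, ∫ x, f (x, y) ∂g1 ∂g1 :=
    fun hf => integral_prod_symm _ hf
  have hgbc : Continuous gb := continuous_iff_continuousAt.2 fun y => (hder2 y).continuousAt
  have hgi1 : Integrable (fun y => wb y * gb y) g1 := by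
    refine TER_bd_int (hwbm.mul hgbc.measurable) (C := M * T) fun y => ?_
    rw [abs_mul]
    exact mul_le_mul (hwbb y) (hgbb y) (abs_nonneg _) hM0
  have hgi2 : Integrable (fun y => ∫ x, w (x, y) * γ (x, y) ∂g1) g1 := by
    refine TER_bd_int ((hwγm.stronglyMeasurable.integral_prod_left').measurable)
      (C := M * T) (hmean_b hwγb)
  have hfirst : |∫ z, w z * γ z ∂g2 - ∫ y, wb y * gb y ∂g1| ≤ 3 * M * ∫ z, |d1 z| ∂g2 := by
    rw [fub hwγi, ← integral_sub hgi2 hgi1, fub hd1i, ← integral_const_mul]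
    refine norm_integral_le_of_norm_le (μ := g1)
      (f := fun y => ∫ x, w (x, y) * γ (x, y) ∂g1 - wb y * gb y)
      (g := fun y => 3 * M * ∫ x, |d1 (x, y)| ∂g1) ?_ (Filter.Eventually.of_forall fun y => hs1 y)
    refine Integrable.const_mul ?_ _
    exact TER_bd_int ((hd1c.abs.measurable.stronglyMeasurable.integral_prod_left').measurable)
      (C := (|A.a| + |A.c|) * T) (hmean_b (f := fun z => |d1 z|)
        fun z => by rw [abs_abs]; exact hd1b z)
  have hsecond : |∫ y, wb y * gb y ∂g1 - (∫ z, w z ∂g2) * ∫ z, γ z ∂g2| ≤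
      3 * M * ∫ z, |d2 z| ∂g2 := by
    rw [fub hwi, fub hγi]
    refine hs2.trans ?_
    rw [fub hd2i]
    refine mul_le_mul_of_nonneg_left ?_ (by positivity)
    refine integral_mono (TER_bd_int hder2c.measurable (hmean_b hd2b)).abs ?_ fun y => ?_
    · exact TER_bd_int
        ((hd2c.abs.measurable.stronglyMeasurable.integral_prod_left').measurable)
        (C := (|A.b| + |A.d|) * T) (hmean_b (f := fun z => |d2 z|)
          fun z => by rw [abs_abs]; exact hd2b z)
    · exact abs_integral_le_integral_abs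
  -- the third term
  have habs1 : ∫ z : ℝ × ℝ, |z.1| ∂g2 ≤ 1 := by
    rw [integral_fun_fst (μ := g1) (ν := g1) (fun x => |x|)]
    simpa using TER_abs
  have habs2 : ∫ z : ℝ × ℝ, |z.2| ∂g2 ≤ 1 := by
    rw [integral_fun_snd (μ := g1) (ν := g1) (fun x => |x|)]
    simpa using TER_abs
  have hI1 : Integrable (fun x : ℝ => |x|) g1 :=
    ((memLp_id_gaussianReal' (μ := 0) (v := 1) 1 (by norm_num)).integrable le_rfl).abs
  have hmz1 : |(mz W a A).1| ≤ M := by
    have h1 := norm_integral_le_of_norm_le (μ := g2) (f := fun z => z.1 * w z)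
      (g := fun z => M * |z.1|) ((hI1.comp_fst g1).const_mul M)
      (Filter.Eventually.of_forall fun z => by
        rw [norm_mul, Real.norm_eq_abs, Real.norm_eq_abs, mul_comm]
        exact mul_le_mul_of_nonneg_right (hwb z) (abs_nonneg _))
    rw [integral_const_mul] at h1
    refine h1.trans ?_
    nlinarith
  have hmz2 : |(mz W a A).2| ≤ M := by
    have h1 := norm_integral_le_of_norm_le (μ := g2) (f := fun z => z.2 * w z)
      (g := fun z => M * |z.2|) ((hI1.comp_snd g1).const_mul M)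
      (Filter.Eventually.of_forall fun z => by
        rw [norm_mul, Real.norm_eq_abs, Real.norm_eq_abs, mul_comm]
        exact mul_le_mul_of_nonneg_right (hwb z) (abs_nonneg _))
    rw [integral_const_mul] at h1
    refine h1.trans ?_
    nlinarith
  have hGi1 : Integrable (fun z => G1 (a + A.ap z)) g2 :=
    hint (hG.c1.comp hFc).measurable fun z => hG.b1 _
  have hGi2 : Integrable (fun z => G2 (a + A.ap z)) g2 :=
    hint (hG.c2.comp hFc).measurable fun z => hG.b2 _
  have htr1 : (A.tr (gp G1 G2 a A)).1 = ∫ z, d1 z ∂g2 := by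
    rw [hd1]
    simp only
    rw [integral_add (hGi1.const_mul _) (hGi2.const_mul _), integral_const_mul,
      integral_const_mul]
    rfl
  have htr2 : (A.tr (gp G1 G2 a A)).2 = ∫ z, d2 z ∂g2 := by
    rw [hd2]
    simp only
    rw [integral_add (hGi1.const_mul _) (hGi2.const_mul _), integral_const_mul,
      integral_const_mul]
    rfl
  have hthird : |dot (mz W a A) (A.tr (gp G1 G2 a A))| ≤
      M * ∫ z, |d1 z| ∂g2 + M * ∫ z, |d2 z| ∂g2 := by
    unfold dot
    rw [htr1, htr2]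
    refine (abs_add_le _ _).trans ?_
    rw [abs_mul, abs_mul]
    exact add_le_add (mul_le_mul hmz1 abs_integral_le_integral_abs (abs_nonneg _) hM0)
      (mul_le_mul hmz2 abs_integral_le_integral_abs (abs_nonneg _) hM0)
  -- comparison with the norm
  have hNm : Measurable (fun z : ℝ × ℝ => nm (A.tr (G1 (a + A.ap z), G2 (a + A.ap z)))) := by
    have h1 : Measurable (fun z => √(d1 z ^ 2 + d2 z ^ 2)) :=
      ((hd1c.measurable.pow_const 2).add (hd2c.measurable.pow_const 2)).sqrt
    exact h1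
  have hNi : Integrable (fun z : ℝ × ℝ => nm (A.tr (G1 (a + A.ap z), G2 (a + A.ap z)))) g2 := by
    refine hint hNm (C := (|A.a| + |A.c|) * T + (|A.b| + |A.d|) * T) fun z => ?_
    unfold nm
    rw [abs_of_nonneg (Real.sqrt_nonneg _)]
    apply Real.sqrt_le_iff.2
    refine ⟨by positivity, ?_⟩
    have h1 := hd1b z
    have h2 := hd2b z
    have h3 : (A.tr (G1 (a + A.ap z), G2 (a + A.ap z))).1 = d1 z := rfl
    have h4 : (A.tr (G1 (a + A.ap z), G2 (a + A.ap z))).2 = d2 z := rfl
    rw [h3, h4]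
    have h5 : d1 z ^ 2 ≤ ((|A.a| + |A.c|) * T) ^ 2 := by
      rw [← sq_abs]; exact pow_le_pow_left₀ (abs_nonneg _) h1 2
    have h6 : d2 z ^ 2 ≤ ((|A.b| + |A.d|) * T) ^ 2 := by
      rw [← sq_abs]; exact pow_le_pow_left₀ (abs_nonneg _) h2 2
    have h7 : 0 ≤ (|A.a| + |A.c|) * T := by positivity
    have h8 : 0 ≤ (|A.b| + |A.d|) * T := by positivity
    nlinarith [mul_nonneg h7 h8]
  have hN1 : ∫ z, |d1 z| ∂g2 ≤ mu (fun x => nm (A.tr (G1 x, G2 x))) a A := by
    refine integral_mono hd1i hNi fun z => ?_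
    refine Real.abs_le_sqrt ?_
    have h3 : (A.tr (G1 (a + A.ap z), G2 (a + A.ap z))).1 = d1 z := rfl
    rw [h3]
    nlinarith [sq_nonneg (A.tr (G1 (a + A.ap z), G2 (a + A.ap z))).2]
  have hN2 : ∫ z, |d2 z| ∂g2 ≤ mu (fun x => nm (A.tr (G1 x, G2 x))) a A := by
    refine integral_mono hd2i hNi fun z => ?_
    refine Real.abs_le_sqrt ?_
    have h3 : (A.tr (G1 (a + A.ap z), G2 (a + A.ap z))).2 = d2 z := rfl
    rw [h3]
    nlinarith [sq_nonneg (A.tr (G1 (a + A.ap z), G2 (a + A.ap z))).1]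
  have hN0 : 0 ≤ mu (fun x => nm (A.tr (G1 x, G2 x))) a A :=
    integral_nonneg fun z => Real.sqrt_nonneg _
  have hRr : Rr W G G1 G2 a A = (∫ z, w z * γ z ∂g2 - ∫ y, wb y * gb y ∂g1) +
      (∫ y, wb y * gb y ∂g1 - (∫ z, w z ∂g2) * ∫ z, γ z ∂g2) -
      dot (mz W a A) (A.tr (gp G1 G2 a A)) := by
    unfold Rr mu
    ring
  rw [hRr]
  refine (abs_sub _ _).trans ?_
  refine (add_le_add_left (abs_add_le _ _) _).trans ?_
  set N := mu (fun x => nm (A.tr (G1 x, G2 x))) a A with hN
  have e1 := mul_le_mul_of_nonneg_left hN1 hM0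
  have e2 := mul_le_mul_of_nonneg_left hN2 hM0
  have e3 : 0 ≤ M * N := mul_nonneg hM0 hN0
  linarith

end Pool.UMD
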